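import Pool.Agent.H14.TOW.TargetsM

/-!
# PNT: points the orbits of which give totally invariant places
-/

set_option autoImplicit false

open MvPolynomial
open Pool.Agent.H12.ZD (pmap)
open Pool.Agent.H18.HIT Pool.Agent.H18.HX Pool.Agent.H18.VP Pool.Agent.H18.VZ Pool.Agent.H14.TOW

namespace Pool.Agent.H4.TOW

theorem mem_van_span {L : ℕ} {k : Type} [Field k] {P : Po L k} {G : Tup L k} {p : Fin L → k}
    (hG : Slf (Ideal.span {P}) G) (hp : eval p P = 0) (n : ℕ) :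
    ∀ c ∈ Ideal.span {P}, eval ((pmap G)^[n] p) c = 0 := by
  induction n with
  | zero =>
    intro c hc
    obtain ⟨u, rfl⟩ := Ideal.mem_span_singleton.1 hc
    rw [Function.iterate_zero, id, map_mul, hp, zero_mul]
  | succ n ih =>
    intro c hc
    rw [Function.iterate_succ_apply', ← eval_aeval]
    exact ih _ (hG.inv c hc)

theorem tot_iff {N : ℕ} {k : Type} [Field k] {P : Po (N + 1) k} {F : Tup (N + 1) k} {e : ℕ}
    {θ Δ : Po (N + 1) k} {H : Ideal (Po (N + 1) k)} (hB : Bas P F e θ Δ) (hT : Tot P F e θ H)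
    (c : Po (N + 1) k) : aeval F c ∈ H ↔ c ∈ H := by
  refine ⟨fun h => ?_, hT.inv c⟩
  have he := hB.pos
  obtain ⟨i0, hi0⟩ : ∃ i0 : Fin e, (i0 : ℕ) = 0 := ⟨⟨0, he⟩, rfl⟩
  have h1 := hT.ind (fun i => if i = i0 then c else 0) ?_ i0
  · rw [if_pos rfl] at h1
    exact h1
  · rw [Finset.sum_eq_single i0]
    · rw [if_pos rfl, hi0, pow_zero, one_mul]
      exact h
    · intro i _ hi
      rw [if_neg hi, map_zero, mul_zero]
    · intro h2
      exact absurd (Finset.mem_univ i0) h2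

theorem pf_PNT (k : Type) [Field k] [CharZero k] [IsAlgClosed k] (h1 : T_MDL) (h2 : T_MIT)
    (h3 : T_MSL) (h4 : T_NRM) (h5 : T_TIN) (h6 : T_OVP) (h7 : T_AFP) (h8 : T_COR k) (h9 : T_BAS)
    (h10 : T_CNE) : T_PNT k := by
  intro K _ _ σ L x b hx hb
  classical
  have hF : Fgn k K := by
    refine ⟨Finset.univ.image x, ?_⟩
    rw [Finset.coe_image, Finset.coe_univ, Set.image_univ]
    exact hx
  obtain ⟨n, r, d, P, F, y, hM⟩ := h1 k K σ hF
  obtain ⟨b', hb1, hb2, hb3, hAFP⟩ := h7 k K σ L x b n r d P F y hx hb hM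
  have hS := (h3 k K σ n r d P F y hM).1
  obtain ⟨m, hm, hCOR⟩ := h8 (n + 1) r d P b' F (by omega) hM.hyp hM.le hM.hom hS hb1 hb2
  refine ⟨m, hm, ?_⟩
  intro e s β hInd hSpn A hA
  have hMm := h2 k K σ n r d m P F y hM hm
  have hSm := (h3 k K (σ ^ m) n r (d ^ m) P (it F m) y hMm).1
  obtain ⟨E, θ, Δ, hBas, hCvi⟩ := h9 (n + 1) k P (it F m) hM.hyp.irr hM.hyp.mon hSm
  have hP : Prime P := hM.hyp.irr.prime
  choose Dt hDt hDt' using fun t =>
    h5 k K (σ ^ m) n r (d ^ m) E e P θ Δ (it F m) y (β t) hMm hBas (hInd t) (hSpn t)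
  choose ma Aa Ba hAh hBh hBne hAB using hM.gen
  have hBa : ∀ a, ¬ P ∣ Ba a := fun a h => hBne a ((hM.ker _ _ (hBh a)).2 h)
  have hAa : ∀ a ∈ A, ¬ P ∣ Aa a := by
    intro a ha h
    have e1 := (hM.ker _ _ (hAh a)).2 h
    rw [← hAB a] at e1
    rcases mul_eq_zero.1 e1 with e2 | e2
    · rw [e2] at ha
      exact hA ha
    · exact hBne a e2
  obtain ⟨D, hD⟩ : ∃ D, D = Δ * ((∏ t, Dt t) * ∏ a ∈ A, Aa a * Ba a) := ⟨_, rfl⟩
  have hPD : ¬ P ∣ D := by
    rw [hD]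
    intro h
    rcases hP.dvd_or_dvd h with h | h
    · exact hBas.ne h
    rcases hP.dvd_or_dvd h with h | h
    · obtain ⟨t, -, ht⟩ := hP.exists_mem_finset_dvd h
      exact hDt t ht
    · obtain ⟨a, ha, hPa⟩ := hP.exists_mem_finset_dvd h
      rcases hP.dvd_or_dvd hPa with h | h
      · exact hAa a ha h
      · exact hBa a h
  obtain ⟨g, D', hg, hgD⟩ := h4 (n + 1) r k P D hM.hyp hPD
  obtain ⟨p, hp0, horb, hgp, hpr, hTot, -⟩ := hCOR E θ Δ hBas hCvi g hg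
  obtain ⟨V, hV⟩ : ∃ V, V = van (it F m) p := ⟨_, rfl⟩
  rw [← hV] at hpr hTot
  have hPV : P ∈ V := by
    rw [hV, mem_van]
    exact fun n => mem_van_span hSm hp0 n P (Ideal.mem_span_singleton_self P)
  have hupV : up g ∉ V := by
    rw [hV, mem_van]
    intro h
    exact hgp (h 0)
  have hDV : D ∉ V := by
    intro h
    apply hupV
    have e1 : up g - D * D' ∈ V := by
      obtain ⟨u, hu⟩ := hgD
      rw [hu]
      exact V.mul_mem_right u hPV
    have e2 := V.add_mem e1 (V.mul_mem_right D' h)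
    rw [sub_add_cancel] at e2
    exact e2
  have hΔV : Δ ∉ V := fun h => hDV (by rw [hD]; exact V.mul_mem_right _ h)
  have hDtV : ∀ t, Dt t ∉ V := by
    intro t h
    apply hDV
    rw [hD]
    refine V.mul_mem_left _ (V.mul_mem_right _ ?_)
    exact V.mem_of_dvd (Finset.dvd_prod_of_mem Dt (Finset.mem_univ t)) h
  have hAV : ∀ a ∈ A, Aa a * Ba a ∉ V := by
    intro a ha h
    apply hDV
    rw [hD]
    refine V.mul_mem_left _ (V.mul_mem_left _ ?_)
    exact V.mem_of_dvd (Finset.dvd_prod_of_mem (fun a => Aa a * Ba a) ha) h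
  have hHmi : Hmi V := by
    rw [hV]
    rw [hV] at hpr hTot hΔV
    exact h10 (n + 1) r (d ^ m) E k P (it F m) θ Δ p hM.hyp hMm.two hMm.hom hSm hBas hp0 hpr
      hTot hΔV
  have hiff : ∀ c, aeval (it F m) c ∈ V ↔ c ∈ V := tot_iff hBas hTot
  have hXV : X (Fin.succ 0) ∉ V := by
    intro h
    have e1 : b' ∈ V := V.mem_of_dvd hb3 h
    rw [hV, mem_van] at e1
    exact horb 0 (e1 0)
  obtain ⟨κ, iF, iA, ψ, τ, O, ρ, hψ, hτ, hκ, hPlc, hval⟩ :=
    h6 k K (σ ^ m) n r (d ^ m) P (it F m) y V hMm hHmi hPV hXV hiff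
  obtain ⟨z, hz1, hz2, hz3, hz4⟩ := hAFP p hp0 horb
  refine ⟨z, hz1, hz2, hz3, κ, iF, iA, O, ρ, τ, hPlc, ?_, ?_, ?_⟩
  · intro a ha
    have e1 : Ba a ∉ V := fun h => hAV a ha (V.mul_mem_left _ h)
    have e2 : Aa a ∉ V := fun h => hAV a ha (V.mul_mem_right _ h)
    obtain ⟨e3, e4⟩ := hval a (ma a) (Aa a) (Ba a) (hAh a) (hBh a) e1 (hAB a)
    refine ⟨e3, fun h => e2 ?_⟩
    rw [h, zero_mul] at e4
    exact (hψ _).1 e4.symm
  · intro t
    exact hDt' t V hPV hTot hiff (hDtV t) κ ψ τ hψ hτ hκ (fun i => rv O ρ (β t i))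
      (fun i m' A' B' hA' hB' hBV heq => (hval (β t i) m' A' B' hA' hB' hBV heq).2)
  · intro hU c hc
    obtain ⟨m', C', hC1, hC2, hC3⟩ := hz4 c hc
    apply hC3
    by_contra hPC
    have e1 : aeval y C' ≠ 0 := fun h => hPC ((hM.ker m' C' hC1).1 h)
    have e2 : C' ∈ V := by
      rw [hV, mem_van]
      intro j
      rw [pmap_it_iterate]
      exact hC2 _
    have e3 : (X (Fin.succ 0) : Po (n + 1 + 1) k) ^ m' ∉ V := fun h =>
      hXV (hpr.mem_of_pow_mem m' h)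
    have e4 : ((X (Fin.succ 0) : Po (n + 1 + 1) k) ^ m').IsHomogeneous m' := by
      have := (isHomogeneous_X k (Fin.succ 0 : Fin (n + 1 + 1))).pow m'
      rwa [one_mul] at this
    have e5 : aeval y C' * aeval y ((X (Fin.succ 0) : Po (n + 1 + 1) k) ^ m') = aeval y C' := by
      rw [map_pow, aeval_X, hM.y1, one_pow, mul_one]
    obtain ⟨-, e6⟩ := hval (aeval y C') m' C' _ hC1 e4 e3 e5
    rw [(hψ C').2 e2] at e6
    rcases mul_eq_zero.1 e6 with e7 | e7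
    · exact (hU _ e1).2 e7
    · exact e3 ((hψ _).1 e7)

end Pool.Agent.H4.TOW
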